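import Pool.Agent.Helper88.CG.Goals

/-! # Packet CG-BI: bilinear forms relative to a modulus -/

set_option autoImplicit false

open Finset Filter Topology

open scoped Classical

namespace Pool.Agent.Helper2.CG

open Pool.Agent.Helper88.CG

section form

variable {G K : Type} [Fintype G] [DecidableEq K]

/-- The pairs in the same fibre. -/
noncomputable def Prs (κ : G → K) : Finset (G × G) :=
  (univ ×ˢ univ).filter (fun x => κ x.2 = κ x.1)

theorem sum_fst (κ : G → K) (N : ℕ)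
    (hfib : ∀ c, (univ.filter (fun d => κ d = κ c)).card = N) (φ : G → ℝ) :
    ∑ x ∈ Prs κ, φ x.1 = N * ∑ c, φ c := by
  unfold Prs
  rw [sum_filter, sum_product, mul_sum]
  refine sum_congr rfl fun c _ => ?_
  have h1 : ∑ d, (if κ d = κ c then φ c else 0) = N * φ c := by
    rw [← sum_filter, sum_const, hfib c, nsmul_eq_mul]
  exact h1

theorem sum_swap (κ : G → K) (φ : G → G → ℝ) :
    ∑ x ∈ Prs κ, φ x.1 x.2 = ∑ x ∈ Prs κ, φ x.2 x.1 := by
  refine sum_nbij' Prod.swap Prod.swap ?_ ?_ ?_ ?_ ?_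
  · intro x hx
    simp only [Prs, mem_filter, mem_product, mem_univ, true_and] at hx ⊢
    exact hx.symm
  · intro x hx
    simp only [Prs, mem_filter, mem_product, mem_univ, true_and] at hx ⊢
    exact hx.symm
  · intro x _; rfl
  · intro x _; rfl
  · intro x _; rfl

theorem sq_bound (κ : G → K) (N : ℕ)
    (hfib : ∀ c, (univ.filter (fun d => κ d = κ c)).card = N) (A s : G → ℝ)
    (hs : ∀ c d, κ c = κ d → s c = s d) :
    ∑ x ∈ Prs κ, (A x.1 - A x.2) ^ 2 ≤ 4 * N * ∑ c, (A c - s c) ^ 2 := by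
  have h1 : ∀ x ∈ Prs κ, (A x.1 - A x.2) ^ 2 ≤
      2 * (A x.1 - s x.1) ^ 2 + 2 * (A x.2 - s x.2) ^ 2 := by
    intro x hx
    simp only [Prs, mem_filter, mem_product, mem_univ, true_and] at hx
    have h2 := hs _ _ hx
    have h3 : A x.1 - A x.2 = (A x.1 - s x.1) - (A x.2 - s x.2) := by rw [h2]; ring
    rw [h3]
    nlinarith [sq_nonneg ((A x.1 - s x.1) + (A x.2 - s x.2))]
  refine (sum_le_sum h1).trans ?_
  rw [sum_add_distrib]
  have h4 := sum_fst κ N hfib (fun c => 2 * (A c - s c) ^ 2)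
  have h5 : ∑ x ∈ Prs κ, 2 * (A x.2 - s x.2) ^ 2 = ∑ x ∈ Prs κ, 2 * (A x.1 - s x.1) ^ 2 :=
    sum_swap κ (fun _ d => 2 * (A d - s d) ^ 2)
  rw [h5, h4, ← mul_sum]
  exact le_of_eq (by ring)

theorem form_bound (κ : G → K) (N : ℕ) (hN : 0 < N)
    (hfib : ∀ c, (univ.filter (fun d => κ d = κ c)).card = N) (A B s t : G → ℝ)
    (hs : ∀ c d, κ c = κ d → s c = s d) (ht : ∀ c d, κ c = κ d → t c = t d) :
    |∑ c, A c * B c - (∑ x ∈ Prs κ, A x.1 * B x.2) / N| ≤
      2 * √((∑ c, (A c - s c) ^ 2) * ∑ c, (B c - t c) ^ 2) := by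
  set X := ∑ c, (A c - s c) ^ 2 with hX
  set Y := ∑ c, (B c - t c) ^ 2 with hY
  have hX0 : 0 ≤ X := sum_nonneg fun c _ => sq_nonneg _
  have hY0 : 0 ≤ Y := sum_nonneg fun c _ => sq_nonneg _
  have hNr : (0 : ℝ) < N := by exact_mod_cast hN
  set D := ∑ x ∈ Prs κ, (A x.1 - A x.2) * (B x.1 - B x.2) with hD
  have hDeq : D = 2 * N * (∑ c, A c * B c - (∑ x ∈ Prs κ, A x.1 * B x.2) / N) := by
    have e1 : D = (∑ x ∈ Prs κ, A x.1 * B x.1 + ∑ x ∈ Prs κ, A x.2 * B x.2) -
        (∑ x ∈ Prs κ, A x.1 * B x.2 + ∑ x ∈ Prs κ, A x.2 * B x.1) := by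
      rw [hD, ← sum_add_distrib, ← sum_add_distrib, ← sum_sub_distrib]
      exact sum_congr rfl fun x _ => by ring
    have e2 : ∑ x ∈ Prs κ, A x.1 * B x.1 = N * ∑ c, A c * B c :=
      sum_fst κ N hfib (fun c => A c * B c)
    have e3 : ∑ x ∈ Prs κ, A x.2 * B x.2 = ∑ x ∈ Prs κ, A x.1 * B x.1 :=
      sum_swap κ (fun _ d => A d * B d)
    have e4 : ∑ x ∈ Prs κ, A x.2 * B x.1 = ∑ x ∈ Prs κ, A x.1 * B x.2 :=
      sum_swap κ (fun c d => A d * B c)
    rw [e1, e3, e4, e2]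
    field_simp
    ring
  have hDsq : D ^ 2 ≤ (4 * N * X) * (4 * N * Y) := by
    refine (sum_mul_sq_le_sq_mul_sq _ _ _).trans ?_
    exact mul_le_mul (sq_bound κ N hfib A s hs) (sq_bound κ N hfib B t ht)
      (sum_nonneg fun x _ => sq_nonneg _) (by positivity)
  have hDabs : |D| ≤ 4 * N * √(X * Y) := by
    apply abs_le_of_sq_le_sq
    · rw [mul_pow, Real.sq_sqrt (mul_nonneg hX0 hY0)]
      refine hDsq.trans (le_of_eq ?_)
      ring
    · positivity
  have h1 : |D| = 2 * N * |∑ c, A c * B c - (∑ x ∈ Prs κ, A x.1 * B x.2) / N| := by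
    rw [hDeq, abs_mul, abs_of_pos (by positivity : (0 : ℝ) < 2 * N)]
  rw [h1] at hDabs
  have h2 : 2 * (N : ℝ) * |∑ c, A c * B c - (∑ x ∈ Prs κ, A x.1 * B x.2) / N| ≤
      2 * N * (2 * √(X * Y)) := by linarith
  exact le_of_mul_le_mul_left h2 (by positivity)

end form

/-- Interchange of sums. -/
theorem swap3 {τ : Type} (I J : Finset ℕ) (f g : ℕ → ℝ) (T : Finset τ) (x y : τ → ℕ → ℝ) :
    ∑ m ∈ I, ∑ n ∈ J, f m * g n * ∑ i ∈ T, x i m * y i n =
      ∑ i ∈ T, (∑ m ∈ I, f m * x i m) * ∑ n ∈ J, g n * y i n := by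
  have h1 : ∀ i ∈ T, (∑ m ∈ I, f m * x i m) * ∑ n ∈ J, g n * y i n =
      ∑ m ∈ I, ∑ n ∈ J, f m * g n * (x i m * y i n) := by
    intro i _
    rw [sum_mul_sum]
    exact sum_congr rfl fun m _ => sum_congr rfl fun n _ => by ring
  symm
  calc ∑ i ∈ T, (∑ m ∈ I, f m * x i m) * ∑ n ∈ J, g n * y i n
      = ∑ i ∈ T, ∑ m ∈ I, ∑ n ∈ J, f m * g n * (x i m * y i n) := sum_congr rfl h1
    _ = ∑ m ∈ I, ∑ i ∈ T, ∑ n ∈ J, f m * g n * (x i m * y i n) := sum_comm
    _ = ∑ m ∈ I, ∑ n ∈ J, ∑ i ∈ T, f m * g n * (x i m * y i n) :=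
        sum_congr rfl fun m _ => sum_comm
    _ = ∑ m ∈ I, ∑ n ∈ J, f m * g n * ∑ i ∈ T, x i m * y i n :=
        sum_congr rfl fun m _ => sum_congr rfl fun n _ => by rw [mul_sum]

section unit

variable (k p : ℕ) [NeZero (k * p)] [NeZero k]

/-- The indicator of `m = c`. -/
noncomputable def uu (m : ℕ) (c : (ZMod (k * p))ˣ) : ℝ :=
  if (m : ZMod (k * p)) = (c : ZMod (k * p)) then 1 else 0

/-- The reduction. -/
noncomputable def red : (ZMod (k * p))ˣ →* (ZMod k)ˣ := ZMod.unitsMap (Dvd.intro p rfl)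

theorem red_val (m : ℕ) (c : (ZMod (k * p))ˣ) (h : (m : ZMod (k * p)) = (c : ZMod (k * p))) :
    ((red k p c : (ZMod k)ˣ) : ZMod k) = (m : ZMod k) := by
  unfold red
  rw [ZMod.unitsMap_val, ← h, ZMod.cast_natCast (Dvd.intro p rfl)]

theorem uu_unit (m : ℕ) (c₀ c : (ZMod (k * p))ˣ)
    (h : (m : ZMod (k * p)) = (c₀ : ZMod (k * p))) : uu k p m c = if c = c₀ then 1 else 0 := by
  unfold uu
  rw [h]
  by_cases hc : c = c₀
  · simp [hc]
  · rw [if_neg hc, if_neg]
    intro h2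
    exact hc (Units.ext h2).symm

theorem uu_nonunit (m : ℕ) (c : (ZMod (k * p))ˣ) (h : ¬ IsUnit (m : ZMod (k * p))) :
    uu k p m c = 0 := by
  unfold uu
  rw [if_neg]
  intro h2
  exact h (h2 ▸ c.isUnit)

theorem key1 (a : ℕ) (α : (ZMod (k * p))ˣ) (hα : (a : ZMod (k * p)) = (α : ZMod (k * p)))
    (m n : ℕ) : (if m * n ≡ a [MOD k * p] then (1 : ℝ) else 0) =
      ∑ c : (ZMod (k * p))ˣ, uu k p m c * uu k p n (α * c⁻¹) := by
  by_cases hm : IsUnit (m : ZMod (k * p))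
  · obtain ⟨c₀, hc₀⟩ := hm
    rw [sum_eq_single c₀]
    · rw [uu_unit k p m c₀ c₀ hc₀.symm, if_pos rfl, one_mul]
      unfold uu
      have : m * n ≡ a [MOD k * p] ↔ (n : ZMod (k * p)) = ((α * c₀⁻¹ : (ZMod (k * p))ˣ) :
          ZMod (k * p)) := by
        rw [← ZMod.natCast_eq_natCast_iff, Nat.cast_mul, hα, ← hc₀, Units.val_mul,
          Units.eq_mul_inv_iff_mul_eq, mul_comm (n : ZMod (k * p))]
      simp only [this]
    · intro c _ hc
      rw [uu_unit k p m c₀ c hc₀.symm, if_neg hc, zero_mul]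
    · intro h
      exact absurd (mem_univ _) h
  · rw [if_neg, sum_eq_zero]
    · intro c _
      rw [uu_nonunit k p m c hm, zero_mul]
    · intro h
      apply hm
      rw [← ZMod.natCast_eq_natCast_iff, Nat.cast_mul, hα] at h
      exact isUnit_of_mul_isUnit_left (h ▸ α.isUnit)

theorem key2 (hp : p.Prime) (a : ℕ) (α : (ZMod (k * p))ˣ)
    (hα : (a : ZMod (k * p)) = (α : ZMod (k * p)))
    (m n : ℕ) : (if m * n ≡ a [MOD k] ∧ ¬ p ∣ m * n then (1 : ℝ) else 0) =
      ∑ x ∈ Prs (red k p), uu k p m x.1 * uu k p n (α * x.2⁻¹) := by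
  have ha : Nat.Coprime a (k * p) := by
    rw [← ZMod.isUnit_iff_coprime, hα]
    exact α.isUnit
  by_cases hmn : IsUnit (m : ZMod (k * p)) ∧ IsUnit (n : ZMod (k * p))
  · obtain ⟨⟨c₀, hc₀⟩, ⟨n₀, hn₀⟩⟩ := hmn
    have hval : ∀ x : (ZMod (k * p))ˣ × (ZMod (k * p))ˣ, x ≠ (c₀, α * n₀⁻¹) →
        uu k p m x.1 * uu k p n (α * x.2⁻¹) = 0 := by
      intro x hx
      rw [uu_unit k p m c₀ x.1 hc₀.symm, uu_unit k p n n₀ _ hn₀.symm]
      by_cases h1 : x.1 = c₀
      · by_cases h2 : α * x.2⁻¹ = n₀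
        · exfalso
          apply hx
          ext1
          · exact h1
          · change x.2 = α * n₀⁻¹
            rw [← h2, mul_inv, inv_inv, mul_inv_cancel_left]
        · rw [if_neg h2, mul_zero]
      · rw [if_neg h1, zero_mul]
    have hval1 : uu k p m c₀ * uu k p n (α * (α * n₀⁻¹)⁻¹) = 1 := by
      rw [uu_unit k p m c₀ c₀ hc₀.symm, uu_unit k p n n₀ _ hn₀.symm, if_pos rfl, if_pos, mul_one]
      rw [mul_inv, inv_inv, mul_inv_cancel_left]
    have hpm : ¬ p ∣ m * n := by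
      have h1 : Nat.Coprime m (k * p) := by
        rw [← ZMod.isUnit_iff_coprime, ← hc₀]; exact c₀.isUnit
      have h2 : Nat.Coprime n (k * p) := by
        rw [← ZMod.isUnit_iff_coprime, ← hn₀]; exact n₀.isUnit
      rw [hp.dvd_mul]
      push Not
      exact ⟨fun h => hp.one_lt.ne' (Nat.dvd_one.1 (h1 ▸ Nat.dvd_gcd h (Dvd.intro_left k rfl))),
        fun h => hp.one_lt.ne' (Nat.dvd_one.1 (h2 ▸ Nat.dvd_gcd h (Dvd.intro_left k rfl)))⟩
    have hiff : m * n ≡ a [MOD k] ↔ red k p (α * n₀⁻¹) = red k p c₀ := by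
      rw [← ZMod.natCast_eq_natCast_iff, Nat.cast_mul, ← red_val k p m c₀ hc₀.symm,
        ← red_val k p n n₀ hn₀.symm, ← red_val k p a α hα, map_mul, map_inv, ← Units.val_mul]
      constructor
      · intro h
        have := Units.ext h
        rw [← this]
        group
      · intro h
        rw [← h]
        congr 1
        group
    by_cases hk : m * n ≡ a [MOD k]
    · rw [if_pos ⟨hk, hpm⟩, sum_eq_single (c₀, α * n₀⁻¹)]
      · exact hval1.symm
      · intro x _ hx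
        exact hval x hx
      · intro h
        exfalso
        apply h
        simp only [Prs, mem_filter, mem_product, mem_univ, true_and]
        exact hiff.1 hk
    · rw [if_neg (fun h => hk h.1), sum_eq_zero]
      intro x hx
      apply hval x
      rintro rfl
      simp only [Prs, mem_filter, mem_product, mem_univ, true_and] at hx
      exact hk (hiff.2 hx)
  · rw [if_neg, sum_eq_zero]
    · intro x _
      rw [not_and_or] at hmn
      rcases hmn with h | h
      · rw [uu_nonunit k p m _ h, zero_mul]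
      · rw [uu_nonunit k p n _ h, mul_zero]
    · rintro ⟨h1, h2⟩
      apply hmn
      have h3 : Nat.Coprime (m * n) k := by
        have h4 : Nat.Coprime a k := Nat.Coprime.coprime_dvd_right (Dvd.intro p rfl) ha
        rw [Nat.Coprime, h1.gcd_eq]
        exact h4
      have h5 : Nat.Coprime (m * n) (k * p) :=
        Nat.Coprime.mul_right h3 ((Nat.Prime.coprime_iff_not_dvd hp).2 h2).symm
      exact ⟨(ZMod.isUnit_iff_coprime _ _).2 (Nat.Coprime.coprime_dvd_left (Dvd.intro n rfl) h5),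
        (ZMod.isUnit_iff_coprime _ _).2
          (Nat.Coprime.coprime_dvd_left (Dvd.intro_left m rfl) h5)⟩

theorem fib_card (hp : p.Prime) (hpk : ¬ p ∣ k) (c : (ZMod (k * p))ˣ) :
    (univ.filter (fun d => red k p d = red k p c)).card = p - 1 := by
  have hsurj : Function.Surjective (red k p) := ZMod.unitsMap_surjective (Dvd.intro p rfl)
  have h1 : ∀ y : (ZMod k)ˣ, (univ.filter (fun d => red k p d = y)).card =
      (univ.filter (fun d => red k p d = red k p c)).card := by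
    intro y
    have := MonoidHom.card_fiber_eq_of_mem_range (red k p) (x := y) (y := red k p c)
      (Set.mem_range.2 (hsurj y)) (Set.mem_range_self c)
    convert this
  have h2 : Fintype.card (ZMod (k * p))ˣ = ∑ y : (ZMod k)ˣ,
      (univ.filter (fun d => red k p d = y)).card := by
    rw [← card_univ]
    exact card_eq_sum_card_fiberwise (fun x _ => by simp)
  rw [sum_congr rfl (fun y _ => h1 y), sum_const, card_univ, smul_eq_mul,
    ZMod.card_units_eq_totient, ZMod.card_units_eq_totient,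
    Nat.totient_mul ((Nat.Prime.coprime_iff_not_dvd hp).2 hpk).symm, Nat.totient_prime hp] at h2
  have hk : 0 < Nat.totient k := Nat.totient_pos.2 (Nat.pos_of_ne_zero (NeZero.ne k))
  exact (Nat.eq_of_mul_eq_mul_left hk h2).symm

/-- The variance of the classes. -/
noncomputable def VV (I : Finset ℕ) (f : ℕ → ℝ) : ℝ :=
  ∑ c ∈ range (k * p), ((∑ n ∈ I.filter (fun n => n % (k * p) = c), f n) -
      (∑ n ∈ I.filter (fun n => n % k = c % k), f n) / p) ^ 2

omit [NeZero (k * p)] [NeZero k] in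
theorem VV_nonneg (I : Finset ℕ) (f : ℕ → ℝ) : 0 ≤ VV k p I f :=
  sum_nonneg fun _ _ => sq_nonneg _

theorem var_bound (I : Finset ℕ) (f : ℕ → ℝ) :
    ∑ c : (ZMod (k * p))ˣ, ((∑ m ∈ I, f m * uu k p m c) -
      (∑ n ∈ I.filter (fun n => n % k = (c : ZMod (k * p)).val % k), f n) / p) ^ 2 ≤
      VV k p I f := by
  set φ : ℕ → ℝ := fun c => ((∑ n ∈ I.filter (fun n => n % (k * p) = c), f n) -
      (∑ n ∈ I.filter (fun n => n % k = c % k), f n) / p) ^ 2 with hφ
  have h1 : ∀ c : (ZMod (k * p))ˣ, ((∑ m ∈ I, f m * uu k p m c) -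
      (∑ n ∈ I.filter (fun n => n % k = (c : ZMod (k * p)).val % k), f n) / p) ^ 2 =
      φ ((c : ZMod (k * p)).val) := by
    intro c
    simp only [hφ]
    congr 2
    rw [sum_filter]
    refine sum_congr rfl fun m _ => ?_
    unfold uu
    have h2 : (m : ZMod (k * p)) = (c : ZMod (k * p)) ↔ m % (k * p) = (c : ZMod (k * p)).val := by
      rw [← ZMod.val_natCast]
      constructor
      · intro h; rw [h]
      · intro h; exact ZMod.val_injective _ h
    by_cases h3 : (m : ZMod (k * p)) = (c : ZMod (k * p))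
    · rw [if_pos h3, if_pos (h2.1 h3), mul_one]
    · rw [if_neg h3, if_neg (fun h => h3 (h2.2 h)), mul_zero]
  rw [sum_congr rfl fun c _ => h1 c]
  have hinj : Set.InjOn (fun c : (ZMod (k * p))ˣ => (c : ZMod (k * p)).val)
      ((univ : Finset (ZMod (k * p))ˣ) : Set (ZMod (k * p))ˣ) := by
    intro c _ d _ h
    exact Units.ext (ZMod.val_injective _ h)
  rw [← sum_image (f := φ) hinj]
  unfold VV
  apply sum_le_sum_of_subset_of_nonneg
  · intro r hr
    obtain ⟨c, -, rfl⟩ := mem_image.1 hr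
    exact mem_range.2 (ZMod.val_lt _)
  · intro r _ _
    positivity

theorem one_p (hp : p.Prime) (hpk : ¬ p ∣ k) (a : ℕ) (ha : Nat.Coprime a (k * p))
    (I J : Finset ℕ) (f g : ℕ → ℝ) :
    |∑ m ∈ I, ∑ n ∈ J, f m * g n * dl k p a (m * n)| ≤
      2 * √(VV k p I f * VV k p J g) := by
  set α : (ZMod (k * p))ˣ := ZMod.unitOfCoprime a ha with hαdef
  have hα : (a : ZMod (k * p)) = (α : ZMod (k * p)) := (ZMod.coe_unitOfCoprime a ha).symm
  have hdl : ∀ m n : ℕ, dl k p a (m * n) =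
      ∑ c ∈ (univ : Finset (ZMod (k * p))ˣ), uu k p m c * uu k p n (α * c⁻¹) -
        (∑ x ∈ Prs (red k p), uu k p m x.1 * uu k p n (α * x.2⁻¹)) / ((p : ℝ) - 1) := by
    intro m n
    unfold dl
    rw [← key1 k p a α hα m n, ← key2 k p hp a α hα m n]
  set A : (ZMod (k * p))ˣ → ℝ := fun c => ∑ m ∈ I, f m * uu k p m c with hA
  set B : (ZMod (k * p))ˣ → ℝ := fun c => ∑ n ∈ J, g n * uu k p n c with hB
  have hS : ∑ m ∈ I, ∑ n ∈ J, f m * g n * dl k p a (m * n) =
      ∑ c, A c * B (α * c⁻¹) - (∑ x ∈ Prs (red k p), A x.1 * B (α * x.2⁻¹)) / ((p - 1 : ℕ) : ℝ) := by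
    have hcast : (((p - 1 : ℕ) : ℝ)) = (p : ℝ) - 1 := by
      rw [Nat.cast_sub hp.one_lt.le, Nat.cast_one]
    have e1 := swap3 I J f g (univ : Finset (ZMod (k * p))ˣ) (fun c m => uu k p m c)
      (fun c n => uu k p n (α * c⁻¹))
    have e2 := swap3 I J f g (Prs (red k p)) (fun x m => uu k p m x.1)
      (fun x n => uu k p n (α * x.2⁻¹))
    simp only [hA, hB]
    rw [← e1, ← e2, hcast, sum_div, ← sum_sub_distrib]
    refine sum_congr rfl fun m _ => ?_
    rw [sum_div, ← sum_sub_distrib]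
    refine sum_congr rfl fun n _ => ?_
    rw [hdl]
    ring
  rw [hS]
  set s : (ZMod (k * p))ˣ → ℝ := fun c =>
    (∑ n ∈ I.filter (fun n => n % k = (c : ZMod (k * p)).val % k), f n) / p with hs
  set t : (ZMod (k * p))ˣ → ℝ := fun c =>
    (∑ n ∈ J.filter (fun n => n % k = (c : ZMod (k * p)).val % k), g n) / p with ht
  have hmod : ∀ c d : (ZMod (k * p))ˣ, red k p c = red k p d →
      (c : ZMod (k * p)).val % k = (d : ZMod (k * p)).val % k := by
    intro c d h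
    have e1 := red_val k p (c : ZMod (k * p)).val c (ZMod.natCast_zmod_val _)
    have e2 := red_val k p (d : ZMod (k * p)).val d (ZMod.natCast_zmod_val _)
    rw [h, e2] at e1
    exact (ZMod.natCast_eq_natCast_iff' _ _ _).1 e1.symm
  have hsc : ∀ c d, red k p c = red k p d → s c = s d := by
    intro c d h
    simp only [hs, hmod c d h]
  have htc : ∀ c d, red k p c = red k p d → t (α * c⁻¹) = t (α * d⁻¹) := by
    intro c d h
    have h2 : red k p (α * c⁻¹) = red k p (α * d⁻¹) := by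
      rw [map_mul, map_mul, map_inv, map_inv, h]
    simp only [ht, hmod _ _ h2]
  refine (form_bound (red k p) (p - 1) (Nat.sub_pos_of_lt hp.one_lt) (fib_card k p hp hpk) A
    (fun c => B (α * c⁻¹)) s (fun c => t (α * c⁻¹)) hsc htc).trans ?_
  have hb1 : ∑ c, (A c - s c) ^ 2 ≤ VV k p I f := var_bound k p I f
  have hb2 : ∑ c, (B (α * c⁻¹) - t (α * c⁻¹)) ^ 2 ≤ VV k p J g := by
    have e1 : ∑ c, (B (α * c⁻¹) - t (α * c⁻¹)) ^ 2 = ∑ c, (B c - t c) ^ 2 :=
      Equiv.sum_comp ((Equiv.inv (ZMod (k * p))ˣ).trans (Equiv.mulLeft α))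
        (fun c => (B c - t c) ^ 2)
    rw [e1]
    exact var_bound k p J g
  have : √((∑ c, (A c - s c) ^ 2) * ∑ c, (B (α * c⁻¹) - t (α * c⁻¹)) ^ 2) ≤
      √(VV k p I f * VV k p J g) := by
    apply Real.sqrt_le_sqrt
    exact mul_le_mul hb1 hb2 (sum_nonneg fun c _ => sq_nonneg _)
      ((sum_nonneg fun c _ => sq_nonneg _).trans hb1)
  linarith

end unit

/-- **Packet CG-BI.** -/
theorem bi (h : StmtVK) : StmtBI := by
  obtain ⟨C, hC, hVK⟩ := h
  refine ⟨2 * C, by positivity, ?_⟩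
  intro k P M1 N1 M2 N2 f g a hk hP ha
  set I := Ioc M1 (M1 + N1) with hI
  set J := Ioc M2 (M2 + N2) with hJ
  have hV1 := hVK k P N1 M1 f hk hP
  have hV2 := hVK k P N2 M2 g hk hP
  set X1 : ℝ := N1 / k + 1 + P ^ 2 * (1 + Real.log P) with hX1
  set X2 : ℝ := N2 / k + 1 + P ^ 2 * (1 + Real.log P) with hX2
  set F := ∑ n ∈ I, f n ^ 2 with hF
  set H := ∑ n ∈ J, g n ^ 2 with hH
  have hP0 : (1 : ℝ) ≤ P := by exact_mod_cast hP
  have hlog : 0 ≤ Real.log P := Real.log_nonneg hP0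
  have hX1p : 0 ≤ X1 := by positivity
  have hX2p : 0 ≤ X2 := by positivity
  have hF0 : 0 ≤ F := sum_nonneg fun _ _ => sq_nonneg _
  have hH0 : 0 ≤ H := sum_nonneg fun _ _ => sq_nonneg _
  have hterm : ∀ p ∈ prk k P, |∑ m ∈ I, ∑ n ∈ J, f m * g n * dl k p (a p) (m * n)| ≤
      2 * (√(VV k p I f) * √(VV k p J g)) := by
    intro p hp
    have hp' : p.Prime ∧ ¬ p ∣ k := (mem_filter.1 hp).2
    haveI : NeZero k := ⟨by omega⟩
    haveI : NeZero (k * p) := ⟨Nat.mul_ne_zero (by omega) hp'.1.ne_zero⟩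
    have h1 := one_p k p hp'.1 hp'.2 (a p) (ha p hp) I J f g
    rwa [Real.sqrt_mul (VV_nonneg k p I f)] at h1
  refine (sum_le_sum hterm).trans ?_
  rw [← mul_sum]
  have hcs : ∑ p ∈ prk k P, √(VV k p I f) * √(VV k p J g) ≤
      √((∑ p ∈ prk k P, VV k p I f) * ∑ p ∈ prk k P, VV k p J g) := by
    apply Real.le_sqrt_of_sq_le
    refine (sum_mul_sq_le_sq_mul_sq _ _ _).trans (le_of_eq ?_)
    congr 1
    · exact sum_congr rfl fun p _ => Real.sq_sqrt (VV_nonneg k p I f)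
    · exact sum_congr rfl fun p _ => Real.sq_sqrt (VV_nonneg k p J g)
  have hprod : (∑ p ∈ prk k P, VV k p I f) * ∑ p ∈ prk k P, VV k p J g ≤
      (C / P) ^ 2 * (X1 * X2 * (F * H)) := by
    calc (∑ p ∈ prk k P, VV k p I f) * ∑ p ∈ prk k P, VV k p J g
        ≤ (C / P * X1 * F) * (C / P * X2 * H) :=
          mul_le_mul hV1 hV2 (sum_nonneg fun p _ => sum_nonneg fun c _ => sq_nonneg _)
            (by positivity)
      _ = _ := by ring
  have hfin : √((∑ p ∈ prk k P, VV k p I f) * ∑ p ∈ prk k P, VV k p J g) ≤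
      C / P * √(X1 * X2 * (F * H)) := by
    refine (Real.sqrt_le_sqrt hprod).trans (le_of_eq ?_)
    rw [Real.sqrt_mul (by positivity), Real.sqrt_sq (by positivity)]
  calc 2 * ∑ p ∈ prk k P, √(VV k p I f) * √(VV k p J g)
      ≤ 2 * (C / P * √(X1 * X2 * (F * H))) := by
        apply mul_le_mul_of_nonneg_left (hcs.trans hfin) (by norm_num)
    _ = 2 * C / P * √(X1 * X2 * (F * H)) := by ring

end Pool.Agent.Helper2.CG
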